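import Mathlib
import Pool.Agent.H925R3.RR.Stubs

/-! PSUB: `p`-adic closeness to the point at infinity is additive. -/

namespace Pool.Agent.H702R2.PSUB

open Pool.Agent.H925R3.RR Pool.Agent.H925R3.DC

theorem N_dom {p : ℕ} [Fact p.Prime] {q r : ℚ} (h : padicNorm p r < padicNorm p q) :
    padicNorm p (q + r) = padicNorm p q := by
  rw [padicNorm.add_eq_max_of_ne h.ne', max_eq_left h.le]

theorem N_den {p : ℕ} [hp : Fact p.Prime] (q : ℚ) :
    (p : ℚ) ^ (padicValNat p q.den) = max 1 (padicNorm p q) := by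
  have hq0 : (q.den : ℚ) ≠ 0 := by exact_mod_cast q.den_nz
  have h1 : padicNorm p (q.den : ℚ) = ((p : ℚ) ^ (padicValNat p q.den))⁻¹ := by
    rw [padicNorm.eq_zpow_of_nonzero hq0, padicValRat.of_nat, zpow_neg, zpow_natCast]
  have h2 : padicNorm p q = padicNorm p (q.num : ℚ) * (p : ℚ) ^ (padicValNat p q.den) := by
    conv_lhs => rw [← Rat.num_div_den q]
    rw [padicNorm.div, h1, div_inv_eq_mul]
  have hp1 : (1 : ℚ) < p := by exact_mod_cast hp.out.one_lt
  by_cases h : p ∣ q.den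
  · have h3 : ¬ (p : ℤ) ∣ q.num := by
      intro h4
      have h5 : Nat.gcd q.num.natAbs q.den = 1 := q.reduced
      have h6 : p ∣ q.num.natAbs := Int.natCast_dvd.mp h4
      have h7 := Nat.dvd_gcd h6 h
      rw [h5] at h7
      exact hp.out.one_lt.ne' (Nat.dvd_one.mp h7)
    have h6 : padicNorm p (q.num : ℚ) = 1 := (padicNorm.int_eq_one_iff _).2 h3
    rw [h2, h6, one_mul, max_eq_right]
    exact one_le_pow₀ hp1.le
  · rw [padicValNat.eq_zero_of_not_dvd h, pow_zero, max_eq_left]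
    rw [h2, padicValNat.eq_zero_of_not_dvd h, pow_zero, mul_one]
    exact padicNorm.of_int _

/-- the case of the same `x`-coordinate -/
theorem case1 {p : ℕ} [hp : Fact p.Prime] (a b : ℤ) (x z : ℚ) (hx : 1 < padicNorm p x)
    (h : z * (4 * (x ^ 3 + a * x + b)) = x ^ 4 - 2 * a * x ^ 2 - 8 * b * x + a ^ 2) :
    padicNorm p x ≤ padicNorm p z := by
  have ha : padicNorm p (a : ℚ) ≤ 1 := padicNorm.of_int _
  have hb : padicNorm p (b : ℚ) ≤ 1 := padicNorm.of_int _
  obtain ⟨t, ht⟩ : ∃ t, t = padicNorm p x := ⟨_, rfl⟩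
  have ht1 : 1 < t := by rw [ht]; exact hx
  have e1 : padicNorm p (x ^ 3) = t ^ 3 := by
    rw [pow_succ, sq, padicNorm.mul, padicNorm.mul, ← ht]; ring
  have e2 : padicNorm p (x ^ 4) = t ^ 4 := by
    rw [pow_succ, padicNorm.mul, e1, ← ht]; ring
  have e3 : padicNorm p (a * x + b) ≤ t := by
    refine (padicNorm.nonarchimedean).trans (max_le ?_ (hb.trans ht1.le))
    rw [padicNorm.mul, ← ht]
    nlinarith [padicNorm.nonneg (p := p) (a : ℚ)]
  have e4 : padicNorm p (x ^ 3 + (a * x + b)) = t ^ 3 := by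
    rw [N_dom, e1]
    rw [e1]
    refine lt_of_le_of_lt e3 ?_
    nlinarith [sq_nonneg t, mul_pos (sub_pos.2 ht1) (by linarith : (0:ℚ) < t)]
  have c1 : padicNorm p (-(2 * a * x ^ 2)) ≤ t ^ 2 := by
    have : padicNorm p ((-(2 * a) : ℤ) : ℚ) ≤ 1 := padicNorm.of_int _
    have h2 : (-(2 * a * x ^ 2) : ℚ) = ((-(2 * a) : ℤ) : ℚ) * (x * x) := by push_cast; ring
    rw [h2, padicNorm.mul, padicNorm.mul, ← ht]
    nlinarith [padicNorm.nonneg (p := p) ((-(2 * a) : ℤ) : ℚ), sq_nonneg t]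
  have c2 : padicNorm p (-(8 * b * x)) ≤ t := by
    have : padicNorm p ((-(8 * b) : ℤ) : ℚ) ≤ 1 := padicNorm.of_int _
    have h2 : (-(8 * b * x) : ℚ) = ((-(8 * b) : ℤ) : ℚ) * x := by push_cast; ring
    rw [h2, padicNorm.mul, ← ht]
    nlinarith [padicNorm.nonneg (p := p) ((-(8 * b) : ℤ) : ℚ)]
  have c3 : padicNorm p ((a : ℚ) ^ 2) ≤ 1 := by
    have : padicNorm p ((a ^ 2 : ℤ) : ℚ) ≤ 1 := padicNorm.of_int _
    have h2 : ((a : ℚ) ^ 2) = ((a ^ 2 : ℤ) : ℚ) := by push_cast; ring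
    rw [h2]; exact this
  have t2 : t ≤ t ^ 2 := by nlinarith
  have t3 : t ^ 2 < t ^ 4 := by nlinarith [sq_nonneg t, sq_nonneg (t ^ 2)]
  have e5 : padicNorm p (-(2 * a * x ^ 2) + (-(8 * b * x) + (a : ℚ) ^ 2)) ≤ t ^ 2 := by
    refine (padicNorm.nonarchimedean).trans (max_le c1 ?_)
    refine (padicNorm.nonarchimedean).trans (max_le (c2.trans t2) (c3.trans (by nlinarith)))
  have e6 : padicNorm p (x ^ 4 + (-(2 * a * x ^ 2) + (-(8 * b * x) + (a : ℚ) ^ 2))) = t ^ 4 := by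
    rw [N_dom, e2]
    rw [e2]
    exact lt_of_le_of_lt e5 t3
  have h7 : z * (4 * (x ^ 3 + (a * x + b))) =
      x ^ 4 + (-(2 * a * x ^ 2) + (-(8 * b * x) + (a : ℚ) ^ 2)) := by
    linear_combination h
  have h8 : padicNorm p z * (padicNorm p 4 * t ^ 3) = t ^ 4 := by
    rw [← e6, ← h7, padicNorm.mul, padicNorm.mul, e4]
  have h9 : padicNorm p (4 : ℚ) ≤ 1 := by
    have := padicNorm.of_int (p := p) 4
    simpa using this
  have hz := padicNorm.nonneg (p := p) z
  have ht3 : 0 < t ^ 3 := by positivity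
  rw [← ht]
  by_contra hlt
  push Not at hlt
  have h10 : padicNorm p z * (padicNorm p 4 * t ^ 3) ≤ padicNorm p z * (1 * t ^ 3) := by
    gcongr
  nlinarith

theorem abs1 {M m X Y D : ℚ} (hM : 0 < M) (hm : 0 < m) (hX : 0 ≤ X) (hY : 0 ≤ Y) (_hD : 0 ≤ D)
    (hDM : D ≤ M ^ 2) (h : X * Y * D = (M * m) ^ 2) (hYm : Y < m) : Y < X := by
  by_contra hle
  push Not at hle
  have h3 : X * Y < m * m := by nlinarith
  have h4 : X * Y * D ≤ X * Y * M ^ 2 := mul_le_mul_of_nonneg_left hDM (by positivity)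
  have h5 : X * Y * M ^ 2 < m * m * M ^ 2 := mul_lt_mul_of_pos_right h3 (by positivity)
  have h6 : m * m * M ^ 2 = (M * m) ^ 2 := by ring
  linarith

theorem abs2 {M m X Y D : ℚ} (hM : 0 < M) (hm : 0 < m) (hY : 0 ≤ Y)
    (h4 : X * D ≤ M ^ 2 * m) (h : X * Y * D = (M * m) ^ 2) (hYm : Y < m) : False := by
  have h5 : X * Y * D = Y * (X * D) := by ring
  have h6 : Y * (X * D) ≤ Y * (M ^ 2 * m) := mul_le_mul_of_nonneg_left h4 hY
  have h7 : Y * (M ^ 2 * m) < m * (M ^ 2 * m) := mul_lt_mul_of_pos_right hYm (by positivity)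
  have h8 : m * (M ^ 2 * m) = (M * m) ^ 2 := by ring
  linarith

/-- the case of different `x`-coordinates -/
theorem case2 {p : ℕ} [hp : Fact p.Prime] (a b : ℤ) (x y X Y : ℚ) (hx : 1 < padicNorm p x)
    (hy : 1 < padicNorm p y)
    (h1 : (X + Y) * (x - y) ^ 2 = 2 * (x + y) * (x * y + a) + 4 * b)
    (h2 : X * Y * (x - y) ^ 2 = (x * y - a) ^ 2 - 4 * b * (x + y)) :
    min (padicNorm p x) (padicNorm p y) ≤ padicNorm p Y := by
  by_contra hlt
  push Not at hlt
  obtain ⟨s, hs⟩ : ∃ s, s = padicNorm p x := ⟨_, rfl⟩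
  obtain ⟨t, ht⟩ : ∃ t, t = padicNorm p y := ⟨_, rfl⟩
  obtain ⟨M, hM⟩ : ∃ M, M = max s t := ⟨_, rfl⟩
  obtain ⟨m, hm⟩ : ∃ m, m = min s t := ⟨_, rfl⟩
  have hMm : M * m = s * t := by rw [hM, hm]; exact max_mul_min s t
  have hs1 : 1 < s := by rw [hs]; exact hx
  have ht1 : 1 < t := by rw [ht]; exact hy
  have hm1 : 1 < m := by rw [hm]; exact lt_min hs1 ht1
  have hM1 : 1 < M := by rw [hM]; exact lt_max_of_lt_left hs1
  have hmM : m ≤ M := by rw [hm, hM]; exact min_le_max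
  have ha : padicNorm p (a : ℚ) ≤ 1 := padicNorm.of_int _
  have hYm : padicNorm p Y < m := by rw [hm, hs, ht]; exact hlt
  have hY0 := padicNorm.nonneg (p := p) Y
  have hX0 := padicNorm.nonneg (p := p) X
  -- norms of the ingredients
  have nxy : padicNorm p (x * y) = M * m := by rw [padicNorm.mul, ← hs, ← ht, hMm]
  have hMm1 : 1 < M * m := by nlinarith
  have n1 : padicNorm p (x * y + a) = M * m := by
    rw [N_dom, nxy]
    rw [nxy]; linarith
  have n2 : padicNorm p (x * y + -a) = M * m := by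
    rw [N_dom, nxy]
    rw [nxy, padicNorm.neg]; linarith
  have n3 : padicNorm p (x + y) ≤ M := by
    rw [hM, hs, ht]; exact padicNorm.nonarchimedean
  have n4 : padicNorm p (x - y) ≤ M := by
    rw [hM, hs, ht]; exact padicNorm.sub
  have n4' := padicNorm.nonneg (p := p) (x - y)
  have n5 : padicNorm p ((x - y) ^ 2) ≤ M ^ 2 := by
    rw [sq, padicNorm.mul]; nlinarith
  have n6 : padicNorm p (-(4 * b * (x + y))) ≤ M := by
    have h3 : padicNorm p ((-(4 * b) : ℤ) : ℚ) ≤ 1 := padicNorm.of_int _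
    have h4 : (-(4 * b * (x + y)) : ℚ) = ((-(4 * b) : ℤ) : ℚ) * (x + y) := by push_cast; ring
    rw [h4, padicNorm.mul]
    nlinarith [padicNorm.nonneg (p := p) ((-(4 * b) : ℤ) : ℚ), padicNorm.nonneg (p := p) (x + y)]
  have n7 : padicNorm p ((x * y + -a) ^ 2) = (M * m) ^ 2 := by
    rw [sq, padicNorm.mul, n2, sq]
  have n8 : padicNorm p ((x * y + -a) ^ 2 + -(4 * b * (x + y))) = (M * m) ^ 2 := by
    rw [N_dom, n7]
    rw [n7]
    refine lt_of_le_of_lt n6 ?_
    nlinarith [mul_pos (by linarith : (0:ℚ) < M) (by linarith : (0:ℚ) < m)]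
  have n9 : padicNorm p (2 * (x + y) * (x * y + a) + 4 * b) ≤ M ^ 2 * m := by
    refine (padicNorm.nonarchimedean).trans (max_le ?_ ?_)
    · rw [padicNorm.mul, padicNorm.mul, n1]
      have h3 : padicNorm p (2 : ℚ) ≤ 1 := by
        have := padicNorm.of_int (p := p) 2
        simpa using this
      have h4 : padicNorm p (2 : ℚ) * padicNorm p (x + y) ≤ 1 * M := by
        apply mul_le_mul h3 n3 (padicNorm.nonneg _) zero_le_one
      have h5 : padicNorm p (2 : ℚ) * padicNorm p (x + y) * (M * m) ≤ 1 * M * (M * m) := by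
        apply mul_le_mul_of_nonneg_right h4
        linarith
      calc _ ≤ 1 * M * (M * m) := h5
        _ = _ := by ring
    · have h3 : padicNorm p ((4 * b : ℤ) : ℚ) ≤ 1 := padicNorm.of_int _
      have h4 : (4 * b : ℚ) = ((4 * b : ℤ) : ℚ) := by push_cast; ring
      rw [h4]
      refine h3.trans ?_
      calc (1 : ℚ) = 1 * 1 := by norm_num
        _ ≤ M ^ 2 * m := mul_le_mul (one_le_pow₀ hM1.le) hm1.le zero_le_one (by positivity)
  have k2 : X * Y * (x - y) ^ 2 = (x * y + -a) ^ 2 + -(4 * b * (x + y)) := by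
    linear_combination h2
  have k3 : padicNorm p X * padicNorm p Y * padicNorm p ((x - y) ^ 2) = (M * m) ^ 2 := by
    rw [← n8, ← k2, padicNorm.mul, padicNorm.mul]
  have hd0 := padicNorm.nonneg (p := p) ((x - y) ^ 2)
  have hMpos : 0 < M := by linarith
  have hmpos : 0 < m := by linarith
  -- |X| > |Y|
  have hXY : padicNorm p Y < padicNorm p X := abs1 hMpos hmpos hX0 hY0 hd0 n5 k3 hYm
  have hsum : padicNorm p (X + Y) = padicNorm p X := N_dom hXY
  have k4 : padicNorm p X * padicNorm p ((x - y) ^ 2) ≤ M ^ 2 * m := by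
    rw [← hsum, ← padicNorm.mul, h1]
    exact n9
  exact abs2 hMpos hmpos hY0 k4 k3 hYm

theorem psub : Pool.Agent.H925R3.RR.PSUB := by
  intro hFSP hFDB hFEQ a b p hpp P Q hP hQ hPQ
  have : Fact p.Prime := ⟨hpp⟩
  have hp1 : (1 : ℚ) < p := by exact_mod_cast hpp.one_lt
  rcases Nat.eq_zero_or_pos (padicValNat p (xc P).den) with h0 | hP1
  · rw [h0]; simp
  rcases Nat.eq_zero_or_pos (padicValNat p (xc Q).den) with h0 | hQ1
  · rw [h0]; simp
  have key : ∀ q : ℚ, 0 < padicValNat p q.den → 1 < padicNorm p q ∧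
      padicNorm p q = (p : ℚ) ^ (padicValNat p q.den) := by
    intro q hq
    have h1 := N_den (p := p) q
    have h2 : (1 : ℚ) < (p : ℚ) ^ (padicValNat p q.den) := one_lt_pow₀ hp1 hq.ne'
    rw [h1] at h2
    have h3 : 1 < padicNorm p q := by
      rcases lt_max_iff.1 h2 with h | h
      · exact absurd h (lt_irrefl _)
      · exact h
    refine ⟨h3, ?_⟩
    rw [h1, max_eq_right h3.le]
  obtain ⟨hx, ex⟩ := key _ hP1
  obtain ⟨hy, ey⟩ := key _ hQ1
  have hfin : min (padicNorm p (xc P)) (padicNorm p (xc Q)) ≤ padicNorm p (xc (P - Q)) := by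
    by_cases hxx : xc P = xc Q
    · have hneg : P = -Q := ((hFEQ ℚ a b P Q).2.1 hP hQ hxx).resolve_left hPQ
      have h1 : P - Q = P + P := by rw [sub_eq_add_neg, ← hneg]
      have h2 : P + P ≠ 0 := by
        intro h0
        apply hPQ
        have h3 : P = -P := eq_neg_of_add_eq_zero_left h0
        rw [h3, hneg, neg_neg]
      have h3 := (hFDB ℚ a b P hP h2).2
      rw [h1, ← hxx, min_self]
      exact case1 a b _ _ hx h3
    · obtain ⟨-, -, h1, h2⟩ := hFSP ℚ a b P Q hP hQ hxx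
      exact case2 a b _ _ _ _ hx hy h1 h2
  by_contra hlt
  push Not at hlt
  have h1 := N_den (p := p) (xc (P - Q))
  have h2 : (p : ℚ) ^ (padicValNat p (xc (P - Q)).den) <
      (p : ℚ) ^ (min (padicValNat p (xc P).den) (padicValNat p (xc Q).den)) :=
    pow_lt_pow_right₀ hp1 hlt
  have h3 : (p : ℚ) ^ (min (padicValNat p (xc P).den) (padicValNat p (xc Q).den)) ≤
      min (padicNorm p (xc P)) (padicNorm p (xc Q)) := by
    rw [ex, ey]
    apply le_min
    · exact pow_le_pow_right₀ hp1.le (min_le_left _ _)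
    · exact pow_le_pow_right₀ hp1.le (min_le_right _ _)
  have h4 := lt_of_lt_of_le h2 (h3.trans hfin)
  rw [h1] at h4
  exact absurd (le_max_right _ _) (not_le.2 h4)

end Pool.Agent.H702R2.PSUB
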